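import Pool.Agent.SpanN.Example

set_option autoImplicit false

/-!
A span `10` sequence produced by a nonlinear feedback shift register with orthogonal feedback
`g(x) = Tr(α^301 x^107)` on the field with `2^9` elements whose linear span is at most `987`,
which is below `2^10 - 2 - 3 * 10 = 992`.
-/

open Finset Pool.Agent.SpanN

namespace Pool.Agent.Results.MP_593d43_lc.LowSpan

/-- Negation of the conjectured lower bound: there are `m < n`, a field `F` with `2^m` elements, a
primitive element `α` of it, an orthogonal `g : F → F₂` that is not affine in the coordinates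
in the basis `1, α, …, α^(m-1)`, a constant `c`, taps `0 < r_1 < ⋯ < r_m < n`, and a sequence `s`
generated by them, such that `s` is a span `n` sequence with linear span less
than `2^n - 2 - 3n`.  The last seven conjuncts give the example explicitly: `m = 9`, `n = 10`,
`α` is a root of `x^9+x^8+x^7+x^3+x^2+x+1`, `g(x) = Tr(α^301 x^107)`, `c = 0`, the taps are
`1, …, 9`, and the linear span is at most `987` (while `2^10 - 2 - 30 = 992`). -/
theorem result :
    ∃ (m n : ℕ) (F : Type) (_ : Field F) (_ : Fintype F) (_ : Algebra (ZMod 2) F)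
      (α : F) (g : F → ZMod 2) (c : ZMod 2) (r : Fin m → ℕ) (s : ℕ → ZMod 2),
      1 ≤ m ∧ m < n ∧ Fintype.card F = 2 ^ m ∧ orderOf α = 2 ^ m - 1 ∧
      IsOrthogonal g ∧ ¬ IsAffineInCoords m α g ∧
      StrictMono r ∧ (∀ i : Fin m, 0 < r i ∧ r i < n) ∧
      IsGenerated α g n c r s ∧ IsSpanN n s ∧
      linearSpan s + 3 * n + 2 < 2 ^ n ∧
      m = 9 ∧ n = 10 ∧
      α ^ 9 + α ^ 8 + α ^ 7 + α ^ 3 + α ^ 2 + α + 1 = 0 ∧
      (∀ x : F, g x = Algebra.trace (ZMod 2) F (α ^ 301 * x ^ 107)) ∧
      c = 0 ∧ (∀ i : Fin m, r i = (i : ℕ) + 1) ∧ linearSpan s ≤ 987 := by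
  classical
  let F := GaloisField 2 9
  let _ : Fintype F := Fintype.ofFinite F
  have hF : Fintype.card F = 2 ^ 9 := by
    rw [Fintype.card_eq_nat_card]
    exact GaloisField.card 2 9 (by norm_num)
  obtain ⟨α, hα⟩ := Aux.exists_root (F := F) hF
  refine ⟨9, 10, F, inferInstance, inferInstance, inferInstance, α, Aux.gfun α, 0,
    fun i => (i : ℕ) + 1, Aux.seq, by norm_num, by norm_num, hF, ?_, ?_, ?_, ?_, ?_, ?_, ?_, ?_,
    rfl, rfl, hα, fun x => rfl, rfl, fun i => rfl, Aux.linearSpan_le⟩
  · rw [Aux.orderOf_alpha hα]; norm_num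
  · exact Aux.isOrthogonal_gfun hF _ (pow_ne_zero _ (Aux.alpha_ne_zero hα))
  · exact Aux.not_affine hα hF
  · intro i j hij
    exact Nat.succ_lt_succ hij
  · intro i
    have := i.isLt
    constructor <;> simp only <;> omega
  · exact Aux.isGenerated hF α hα
  · exact Aux.isSpanN
  · have := Aux.linearSpan_le
    omega

end Pool.Agent.Results.MP_593d43_lc.LowSpan
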